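import Pool.Agent.HAR.Stmts

/-!
Squad HAR, row CLS: isomorphism classes.
-/

namespace Pool.Agent.HAR.H44

open Finset Pool.Agent.HAR

theorem mk_eq_of_iso {m m' : ℕ} {G : SimpleGraph (Fin m)} {H : SimpleGraph (Fin m')}
    (e : G ≃g H) : (⟨m, Quotient.mk (isoS m) G⟩ : Σ m : ℕ, Quotient (isoS m)) =
      ⟨m', Quotient.mk (isoS m') H⟩ := by
  have h : m = m' := by
    have := Fintype.card_congr e.toEquiv
    simpa using this
  subst h
  have h2 : Quotient.mk (isoS m) G = Quotient.mk (isoS m) H := Quotient.sound ⟨e⟩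
  rw [h2]

theorem iso_of_mk_eq {m m' : ℕ} {G : SimpleGraph (Fin m)} {H : SimpleGraph (Fin m')}
    (h : (⟨m, Quotient.mk (isoS m) G⟩ : Σ m : ℕ, Quotient (isoS m)) =
      ⟨m', Quotient.mk (isoS m') H⟩) : Nonempty (G ≃g H) := by
  obtain ⟨h1, h2⟩ := Sigma.mk.inj_iff.mp h
  subst h1
  exact Quotient.exact (eq_of_heq h2)

theorem cl_eq {V W : Type} [Finite V] [Finite W] (G : SimpleGraph V) (H : SimpleGraph W) :
    cl G = cl H ↔ Nonempty (G ≃g H) := by
  have e1 : G ≃g G.map (Finite.equivFin V).toEmbedding := SimpleGraph.Iso.map _ G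
  have e2 : H ≃g H.map (Finite.equivFin W).toEmbedding := SimpleGraph.Iso.map _ H
  constructor
  · intro h
    obtain ⟨e⟩ := iso_of_mk_eq h
    exact ⟨(e1.trans e).trans e2.symm⟩
  · rintro ⟨e⟩
    exact mk_eq_of_iso ((e1.symm.trans e).trans e2)

open Classical in
/-- extension of an isomorphism of induced subgraphs -/
noncomputable def ext {n : ℕ} {G H : SimpleGraph (Fin n)} {S B : Finset (Fin n)}
    (e : G.induce (S : Set (Fin n)) ≃g H.induce (B : Set (Fin n))) (x : Fin n) : Fin n :=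
  if h : x ∈ (S : Set (Fin n)) then (e ⟨x, h⟩).1 else x

theorem ext_of {n : ℕ} {G H : SimpleGraph (Fin n)} {S B : Finset (Fin n)}
    (e : G.induce (S : Set (Fin n)) ≃g H.induce (B : Set (Fin n))) (x : Fin n)
    (h : x ∈ (S : Set (Fin n))) : ext e x = (e ⟨x, h⟩).1 := by
  unfold ext
  rw [dif_pos h]

theorem ext_isE {n : ℕ} {G H : SimpleGraph (Fin n)} {S B : Finset (Fin n)}
    (e : G.induce (S : Set (Fin n)) ≃g H.induce (B : Set (Fin n))) : IsE G H S (ext e) := by
  constructor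
  · intro x hx y hy hxy
    rw [ext_of e x hx, ext_of e y hy] at hxy
    have h1 := e.injective (Subtype.ext hxy)
    exact congrArg Subtype.val h1
  · intro x hx y hy
    rw [ext_of e x hx, ext_of e y hy]
    have h1 := e.map_rel_iff' (a := ⟨x, hx⟩) (b := ⟨y, hy⟩)
    simpa using h1

theorem cls : ClsStmt := by
  refine ⟨fun V W _ _ G H => cl_eq G H, ?_, ?_⟩
  · intro n G S hS B hB
    have h1 : cl (G.induce (B : Set (Fin n))) = cl (G.induce (S : Set (Fin n))) :=
      congrArg Subtype.val hB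
    obtain ⟨e'⟩ := (cl_eq _ _).mp h1
    have e := e'.symm
    have h2 := hS _ (ext_isE e)
    ext y
    constructor
    · intro hy
      have hy' : y ∈ (B : Set (Fin n)) := hy
      obtain ⟨⟨x, hx⟩, hxy⟩ := e.surjective ⟨y, hy'⟩
      have h3 := h2 x hx
      rw [ext_of e x hx, hxy] at h3
      have h4 : y = x := h3
      rw [h4]
      exact hx
    · intro hy
      have hy' : y ∈ (S : Set (Fin n)) := hy
      have h3 := h2 y hy
      rw [ext_of e y hy'] at h3
      have h4 : (e ⟨y, hy'⟩).1 ∈ (B : Set (Fin n)) := (e ⟨y, hy'⟩).2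
      rw [h3] at h4
      exact h4
  · intro n G H S hS B hB
    have h1 : cl (H.induce (B : Set (Fin n))) = cl (G.induce (S : Set (Fin n))) :=
      congrArg Subtype.val hB
    obtain ⟨e'⟩ := (cl_eq _ _).mp h1
    exact hS ⟨_, ext_isE e'.symm⟩

end Pool.Agent.HAR.H44
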