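import Pool.Agent.HAR.Stmts

/-!
Squad HAR, row CPR: the product of the binomial coefficients.
-/

namespace Pool.Agent.HAR.H44

open Finset Pool.Agent.HAR

theorem log_fact_le (m : ℕ) : Real.log ((m + 1).factorial) ≤
    (m + 1 + 1 : ℝ) * Real.log (m + 1) - m := by
  induction m with
  | zero => simp
  | succ m ih =>
    have h0 : (0 : ℝ) < (m : ℝ) + 1 := by positivity
    have h1 : (0 : ℝ) < (m : ℝ) + 1 + 1 := by positivity
    rw [Nat.factorial_succ]
    push_cast
    rw [Real.log_mul h1.ne' (by positivity)]
    have h2 := Real.one_sub_inv_le_log_of_pos (x := ((m : ℝ) + 1 + 1) / (m + 1)) (by positivity)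
    rw [Real.log_div h1.ne' h0.ne', inv_div] at h2
    have h3 : 1 - ((m : ℝ) + 1) / (m + 1 + 1) = 1 / (m + 1 + 1) := by
      field_simp
      ring
    rw [h3] at h2
    have h4 : ((m : ℝ) + 1 + 1) * (1 / (m + 1 + 1)) ≤
        (m + 1 + 1) * (Real.log (m + 1 + 1) - Real.log (m + 1)) :=
      mul_le_mul_of_nonneg_left h2 h1.le
    rw [mul_one_div_cancel h1.ne'] at h4
    linarith

theorem step (u : ℕ) : ∑ t ∈ range (u + 1 + 1), Real.log ((u + 1).choose t) =
    ∑ t ∈ range (u + 1), Real.log (u.choose t) + (u + 1 : ℝ) * Real.log (u + 1)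
      - Real.log ((u + 1).factorial) := by
  rw [Finset.sum_range_succ, Nat.choose_self]
  have h1 : ∀ t ∈ range (u + 1), Real.log ((u + 1).choose t) =
      Real.log (u.choose t) + Real.log (u + 1) - Real.log ((u + 1 - t : ℕ) : ℝ) := by
    intro t ht
    rw [Finset.mem_range] at ht
    have h2 := Nat.choose_mul_succ_eq u t
    have h3 : (0 : ℝ) < u.choose t := by
      exact_mod_cast Nat.choose_pos (by omega)
    have h4 : (0 : ℝ) < (u + 1).choose t := by
      exact_mod_cast Nat.choose_pos (by omega)
    have h5 : (0 : ℝ) < ((u + 1 - t : ℕ) : ℝ) := by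
      exact_mod_cast (by omega : 0 < u + 1 - t)
    have h6 : (u.choose t : ℝ) * (u + 1) = (u + 1).choose t * ((u + 1 - t : ℕ) : ℝ) := by
      exact_mod_cast h2
    have h7 := congrArg Real.log h6
    rw [Real.log_mul h3.ne' (by positivity), Real.log_mul h4.ne' h5.ne'] at h7
    linarith
  rw [Finset.sum_congr rfl h1, Finset.sum_sub_distrib, Finset.sum_add_distrib,
    Finset.sum_const, Finset.card_range]
  have h8 : ∑ t ∈ range (u + 1), Real.log ((u + 1 - t : ℕ) : ℝ) =
      Real.log ((u + 1).factorial) := by
    have h9 : ∑ t ∈ range (u + 1), Real.log ((u + 1 - t : ℕ) : ℝ) =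
        ∑ t ∈ range (u + 1), Real.log ((t + 1 : ℕ) : ℝ) := by
      rw [← Finset.sum_range_reflect]
      refine Finset.sum_congr rfl fun t ht => ?_
      rw [Finset.mem_range] at ht
      congr 2
      omega
    rw [h9, ← Finset.prod_range_add_one_eq_factorial]
    push_cast
    rw [Real.log_prod]
    intro t _
    positivity
  rw [h8]
  simp

theorem cpr : CprStmt := by
  intro u
  induction u with
  | zero => simp
  | succ u ih =>
    rw [step]
    have h1 := log_fact_le u
    have h2 : Real.log ((u + 1).factorial) = Real.log (u + 1) + Real.log (u.factorial) := by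
      rw [Nat.factorial_succ]
      push_cast
      rw [Real.log_mul (by positivity) (by positivity)]
    push_cast
    nlinarith

end Pool.Agent.HAR.H44
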